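import Pool.Agent.H27.L1.H16.GB.EGD
import Pool.Agent.H27.L1.H72.GU.EGM

/-!
# Row EGMD of the board gb: the energy of two sublattices with a neighbourhood (after helper72's row
EGM)
-/

set_option autoImplicit false

open Pool.Agent.H27.L1.H34.GM Pool.Agent.H27.L1.H34.GZ Pool.Agent.H27.L1.H34.GU Pool.Agent.H27.L1.H72.GZ Pool.Agent.H27.L1.H72.GU

namespace Pool.Agent.H27.L1.H16.GB

open Classical in
/-- one pair of classes -/
theorem clsPD {m : ℕ} (hm : 1 ≤ m) {C₁ C₂ C₄ C₅ C₇ C0 ε δ : ℝ} {K₄ : ℕ} (hδ : 0 < δ) (hC₁ : 0 < C₁)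
    (hC₂ : 1 ≤ C₂) (hC₄ : 0 < C₄) (hC₅ : 0 < C₅) (hC0 : 0 ≤ C0) (hCNT : T_CNT) (hIDX : T_IDX)
    (hMUL : ∀ (b : Mat m) (v : Fin m → ℝ),
      (∀ i, 0 < v i) → Monotone v → ∀ (S : Set (AddSubgroup (Fin m → ℤ)))
      (sel : AddSubgroup (Fin m → ℤ) → ZM m),
      (∀ L ∈ S, (sel L).det ≠ 0 ∧ AddSubgroup.closure (Set.range (sel L)) = L ∧
        ∀ i, rowN (vb (sel L i) b) ≤ v i) →
      ∀ f : ZM m → ENNReal, (∀ x u : ZM m, IsUnit u → f (u * x) = f x) →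
        ENNReal.ofReal (skw v) * ∑' L : S, f (sel L) ≤
          ∑' x : ZM m, if inBox b (fun i => C₂ * v i) x then f x else 0)
    (hDAV : ∀ (b n : Mat m) (a : Fin m → ℝ) (k : Mat m), Sgl b n a k →
      ∀ v : Fin m → ℝ, (∀ i, 0 < v i) → Monotone v → ∀ H : ℝ, 1 ≤ H →
      (∀ x : ZM m, inBox b v x → |(x.det : ℝ)| ≤ H) →
        ∑' x : ZM m, (if inBox b v x then (NL x : ENNReal) ^ 2 else 0) ≤
          ENNReal.ofReal (C₄ * (1 + Real.log H) ^ K₄ * ∏ i, ∏ j, (1 + v i / a j)))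
    (hCNX : ∀ (N : ℕ), 1 ≤ N → ∀ (b n : Mat m) (a : Fin m → ℝ) (k : Mat m), Sgl b n a k →
      ∀ R : Fin m → ℝ, (∀ i, 0 < R i) → Monotone R →
        ∑' x : ZM m, (if x.det.natAbs = N ∧ inBox b R x then (1 : ENNReal) else 0) ≤
          ENNReal.ofReal (C₅ * (N : ℝ) ^ (ε - 1) * ∏ i, ∏ j, (1 + R i / a j)))
    (hEG3 : ∀ (U B A : Fin m → ℝ) (Q w : ℝ), (∀ i, 0 < U i) → (∀ i, 0 < B i) →
      (∀ i, 0 < A i) → Monotone U → Monotone B → Monotone A → 0 < Q → 0 < w →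
      (∀ i, A i ≤ (2 ^ m * C₁ + (2 ^ (m + 1)) ^ m) * U i) →
      (∀ i, A i ≤ (2 ^ m * C₁ + (2 ^ (m + 1)) ^ m) * B i) →
      ∏ i, U i ≤ (2 ^ m * C₁ + (2 ^ (m + 1)) ^ m) * w * ∏ i, A i →
      ∏ i, B i ≤ (2 ^ m * C₁ + (2 ^ (m + 1)) ^ m) * Q * ∏ i, A i →
      Q * ∏ i, A i ≤ (2 ^ m * C₁ + (2 ^ (m + 1)) ^ m) * ∏ i, B i →
      ∏ i, ∏ j, ((1 + U i / A j) * (1 + B i / A j) * (1 + δ * (U i / B j))) ≤
        C₇ * w ^ m * Q ^ m * (1 + δ ^ m * w / Q) ^ m * skw A * skw U * skw B)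
    (hC₇ : 0 < C₇)
    {b n : Mat m} {a : Fin m → ℝ} {k : Mat m} (hs : Sgl b n a k) (hdet1 : 1 ≤ |b.det|)
    (hdet2 : |b.det| ≤ Real.exp m) {A : Fin m → ℝ} (hA1 : Monotone A) (hA2 : ∀ j, a j ≤ A j)
    (hA3 : ∀ j, A j ≤ 2 ^ m * a j) {V B : Fin m → ℝ} (hV0 : ∀ i, 0 < V i) (hV : Monotone V)
    (hB0 : ∀ i, 0 < B i) (hB : Monotone B)
    {N : ℕ} (hN : 1 ≤ N) {w : ℝ} (hw : 1 ≤ w)
    (S S' : Set (AddSubgroup (Fin m → ℤ))) (sel : AddSubgroup (Fin m → ℤ) → ZM m)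
    (vs : AddSubgroup (Fin m → ℤ) → Fin m → ℝ) (hsel : Sel b sel vs)
    (hS1 : ∀ L ∈ S, L.index ≠ 0) (hS2 : ∀ L ∈ S, ∀ i, vs L i ≤ V i ∧ V i ≤ 2 ^ (m + 1) * vs L i)
    (hS3 : ∀ L ∈ S, ∀ i, a i ≤ C₁ * vs L i) (hS4 : ∀ L ∈ S, ∏ i, vs L i ≤ w * |b.det|)
    (hS'1 : ∀ L ∈ S', L.index = N)
    (hS'2 : ∀ L ∈ S', ∀ i, vs L i ≤ B i ∧ B i ≤ 2 ^ (m + 1) * vs L i)
    (hS'3 : ∀ L ∈ S', ∀ i, a i ≤ C₁ * vs L i) (hS'4 : ∀ L ∈ S', ∏ i, vs L i = N * |b.det|) :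
    ∑' M : AddSubgroup (Fin m → ℤ), ∑' L : AddSubgroup (Fin m → ℤ), (if M ∈ S' ∧ L ∈ S then
      (NL (sel L) : ENNReal) ^ 2 * ENNReal.ofReal (∏ i, ∏ j, (1 + C0 * δ * vs L i / vs M j))
        else 0) ≤
      ENNReal.ofReal ((1 + C0 * 2 ^ (m + 1)) ^ (m * m) *
        (1 + C₂ * (m * 2 ^ m) * 2 ^ m) ^ (m * m) * (1 + C₂ * (m * 2 ^ m) * 2 ^ m) ^ (m * m) *
        C₄ * C₅ *
        (1 + Real.log (m.factorial * (C₂ * (m * 2 ^ m) * 2 ^ (m + 1)) ^ m * Real.exp m * w)) ^ K₄ *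
        (N : ℝ) ^ (ε - 1) *
        (C₇ * w ^ m * (N : ℝ) ^ m * (1 + δ ^ m * w / N) ^ m * (((2 : ℝ) ^ m) ^ (m * m) * skw a))) := by
  have hm0 : (1 : ℝ) ≤ m := by exact_mod_cast hm
  have ha : ∀ i, 0 < a i := hs.pos
  have hA0 : ∀ i, 0 < A i := fun i => (ha i).trans_le (hA2 i)
  have h2m : (1 : ℝ) ≤ 2 ^ m := one_le_pow₀ (by norm_num)
  have h2m1 : (1 : ℝ) ≤ 2 ^ (m + 1) := one_le_pow₀ (by norm_num)
  have hprodA : |b.det| = ∏ j, a j := (hCNT m b n a k hs).2.2.2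
  have hN1 : (1 : ℝ) ≤ N := by exact_mod_cast hN
  have hzero : (∀ M L, ¬ (M ∈ S' ∧ L ∈ S)) →
    ∑' M : AddSubgroup (Fin m → ℤ), ∑' L : AddSubgroup (Fin m → ℤ), (if M ∈ S' ∧ L ∈ S then
      (NL (sel L) : ENNReal) ^ 2 * ENNReal.ofReal (∏ i, ∏ j, (1 + C0 * δ * vs L i / vs M j))
        else 0) = 0 := by
    intro h
    have : ∀ M L : AddSubgroup (Fin m → ℤ), (if M ∈ S' ∧ L ∈ S then
      (NL (sel L) : ENNReal) ^ 2 * ENNReal.ofReal (∏ i, ∏ j, (1 + C0 * δ * vs L i / vs M j))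
        else 0) = 0 := fun M L => if_neg (h M L)
    simp only [this, tsum_zero]
  rcases S.eq_empty_or_nonempty with hSe | ⟨L₀, hL₀⟩
  · rw [hzero (by rw [hSe]; exact fun M L h => h.2)]
    exact zero_le
  rcases S'.eq_empty_or_nonempty with hSe | ⟨M₀, hM₀⟩
  · rw [hzero (by rw [hSe]; exact fun M L h => h.1)]
    exact zero_le
  -- the products
  have hPV : ∏ i, V i ≤ (2 ^ (m + 1)) ^ m * (w * |b.det|) := by
    calc ∏ i, V i ≤ ∏ i, (2 ^ (m + 1) * vs L₀ i) :=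
          Finset.prod_le_prod (fun i _ => (hV0 i).le) fun i _ => (hS2 L₀ hL₀ i).2
      _ = (2 ^ (m + 1)) ^ m * ∏ i, vs L₀ i := by
          rw [Finset.prod_mul_distrib]; simp
      _ ≤ _ := mul_le_mul_of_nonneg_left (hS4 L₀ hL₀) (by positivity)
  have hPB : ∏ i, B i ≤ (2 ^ (m + 1)) ^ m * (N * |b.det|) := by
    calc ∏ i, B i ≤ ∏ i, (2 ^ (m + 1) * vs M₀ i) :=
          Finset.prod_le_prod (fun i _ => (hB0 i).le) fun i _ => (hS'2 M₀ hM₀ i).2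
      _ = (2 ^ (m + 1)) ^ m * ∏ i, vs M₀ i := by
          rw [Finset.prod_mul_distrib]; simp
      _ = _ := by rw [hS'4 M₀ hM₀]
  have hvp : ∀ M ∈ S', ∀ i, 0 < vs M i := by
    intro M hM i
    obtain ⟨n', k', hs'⟩ := hsel.sgl M (by rw [hS'1 M hM]; omega)
    exact hs'.pos i
  have hvp' : ∀ L ∈ S, ∀ i, 0 < vs L i := by
    intro L hL i
    obtain ⟨n', k', hs'⟩ := hsel.sgl L (hS1 L hL)
    exact hs'.pos i
  have i1 := clsA hm hC₂ hC₄ hCNT hMUL hDAV hs hdet1 hdet2 hA2 hA3 hV0 hV hw S sel vs hsel hS1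
    (fun L hL i => (hS2 L hL i).1) hPV
  have i2 := clsB hm hC₂ hC₅ hCNT hIDX hMUL hCNX hs hA2 hA3 hB0 hB hN S' sel vs hsel hS'1
    (fun L hL i => (hS'2 L hL i).1)
  obtain ⟨cM, hcM⟩ : ∃ c : ℝ, c = (1 + C₂ * (m * 2 ^ m) * 2 ^ m) ^ (m * m) := ⟨_, rfl⟩
  obtain ⟨H, hH⟩ : ∃ H : ℝ, H = m.factorial * (C₂ * (m * 2 ^ m) * 2 ^ (m + 1)) ^ m *
    Real.exp m * w := ⟨_, rfl⟩
  have hH1 : 1 ≤ H := by
    have hfac : (1 : ℝ) ≤ m.factorial := by
      exact_mod_cast Nat.one_le_iff_ne_zero.2 (Nat.factorial_ne_zero m)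
    have hexp : 1 ≤ Real.exp m := Real.one_le_exp (by linarith)
    have hM : (1 : ℝ) ≤ m * 2 ^ m := by nlinarith
    have h1 : 1 ≤ C₂ * (m * 2 ^ m) := by nlinarith
    have hCM2 : 1 ≤ (C₂ * (m * 2 ^ m) * 2 ^ (m + 1)) ^ m := one_le_pow₀ (by nlinarith)
    have h2 : 1 ≤ m.factorial * (C₂ * (m * 2 ^ m) * 2 ^ (m + 1)) ^ m := by nlinarith
    have h3 : 1 ≤ m.factorial * (C₂ * (m * 2 ^ m) * 2 ^ (m + 1)) ^ m * Real.exp m := by
      nlinarith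
    rw [hH]
    nlinarith
  have hlog : 0 ≤ Real.log H := Real.log_nonneg hH1
  have hcM0 : 0 < cM := by
    rw [hcM]
    have : 0 < C₂ := by linarith
    positivity
  obtain ⟨P₁, hP₁⟩ : ∃ P₁ : ℝ, P₁ = ∏ i, ∏ j, (1 + V i / A j) := ⟨_, rfl⟩
  obtain ⟨P₂, hP₂⟩ : ∃ P₂ : ℝ, P₂ = ∏ i, ∏ j, (1 + B i / A j) := ⟨_, rfl⟩
  obtain ⟨P₃, hP₃⟩ : ∃ P₃ : ℝ, P₃ = ∏ i, ∏ j, (1 + δ * (V i / B j)) := ⟨_, rfl⟩
  rw [← hcM, ← hH, ← hP₁] at i1
  rw [← hcM, ← hP₂] at i2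
  rw [← hcM, ← hH]
  have hpp : ∀ x y : Fin m → ℝ, (∀ i, 0 < x i) → (∀ i, 0 < y i) →
      0 ≤ ∏ i, ∏ j, (1 + x i / y j) := fun x y hx hy =>
    Finset.prod_nonneg fun i _ => Finset.prod_nonneg fun j _ => by
      have := div_pos (hx i) (hy j)
      linarith
  have hP₁0 : 0 ≤ P₁ := by rw [hP₁]; exact hpp V A hV0 hA0
  have hP₂0 : 0 ≤ P₂ := by rw [hP₂]; exact hpp B A hB0 hA0
  have hP₃0 : 0 ≤ P₃ := by
    rw [hP₃]
    refine Finset.prod_nonneg fun i _ => Finset.prod_nonneg fun j _ => ?_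
    have := mul_pos hδ (div_pos (hV0 i) (hB0 j))
    linarith
  have hcc : (0 : ℝ) < 2 ^ m * C₁ := by positivity
  have hcc2 : (0 : ℝ) < (2 ^ (m + 1)) ^ m := by positivity
  have hAle : ∀ X : Fin m → ℝ, (∀ i, 0 < X i) → (∀ i, a i ≤ C₁ * X i) →
      ∀ i, A i ≤ (2 ^ m * C₁ + (2 ^ (m + 1)) ^ m) * X i := by
    intro X hX h i
    calc A i ≤ 2 ^ m * a i := hA3 i
      _ ≤ 2 ^ m * (C₁ * X i) := mul_le_mul_of_nonneg_left (h i) (by positivity)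
      _ = 2 ^ m * C₁ * X i := by ring
      _ ≤ _ := by
          apply mul_le_mul_of_nonneg_right _ (hX i).le
          linarith
  have hPa0 : 0 ≤ ∏ i, a i := Finset.prod_nonneg fun i _ => (ha i).le
  have hPaA : ∏ i, a i ≤ ∏ i, A i := Finset.prod_le_prod (fun i _ => (ha i).le) fun i _ => hA2 i
  have hPup : ∀ (X : Fin m → ℝ) (t : ℝ), 0 ≤ t → ∏ i, X i ≤ (2 ^ (m + 1)) ^ m * (t * |b.det|) →
      ∏ i, X i ≤ (2 ^ m * C₁ + (2 ^ (m + 1)) ^ m) * t * ∏ i, A i := by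
    intro X t ht h
    calc ∏ i, X i ≤ (2 ^ (m + 1)) ^ m * (t * |b.det|) := h
      _ = (2 ^ (m + 1)) ^ m * t * ∏ i, a i := by rw [hprodA]; ring
      _ ≤ (2 ^ m * C₁ + (2 ^ (m + 1)) ^ m) * t * ∏ i, A i := by
          apply mul_le_mul _ hPaA hPa0 (by positivity)
          apply mul_le_mul_of_nonneg_right _ ht
          linarith
  have hPlow : (N : ℝ) * ∏ i, A i ≤ (2 ^ m * C₁ + (2 ^ (m + 1)) ^ m) * ∏ i, B i := by
    have h1 : ∏ i, A i ≤ (2 ^ m) ^ m * ∏ i, a i := by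
      calc ∏ i, A i ≤ ∏ i, (2 ^ m * a i) :=
            Finset.prod_le_prod (fun i _ => (hA0 i).le) fun i _ => hA3 i
        _ = _ := by rw [Finset.prod_mul_distrib]; simp
    have h2 : ∏ i, vs M₀ i ≤ ∏ i, B i :=
      Finset.prod_le_prod (fun i _ => (hvp M₀ hM₀ i).le) fun i _ => (hS'2 M₀ hM₀ i).1
    have h3 : ((2 : ℝ) ^ m) ^ m ≤ (2 ^ (m + 1)) ^ m :=
      pow_le_pow_left₀ (by positivity) (pow_le_pow_right₀ (by norm_num) (by omega)) m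
    have h4 : 0 ≤ ∏ i, B i := Finset.prod_nonneg fun i _ => (hB0 i).le
    calc (N : ℝ) * ∏ i, A i ≤ N * ((2 ^ m) ^ m * ∏ i, a i) :=
          mul_le_mul_of_nonneg_left h1 (by linarith)
      _ = (2 ^ m) ^ m * ∏ i, vs M₀ i := by rw [hS'4 M₀ hM₀, hprodA]; ring
      _ ≤ (2 ^ m) ^ m * ∏ i, B i := mul_le_mul_of_nonneg_left h2 (by positivity)
      _ ≤ _ := mul_le_mul_of_nonneg_right (by linarith) h4
  have j3 : P₁ * P₂ * P₃ ≤ C₇ * w ^ m * (N : ℝ) ^ m * (1 + δ ^ m * w / N) ^ m * skw A * skw V *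
      skw B := by
    have h1 := hEG3 V B A N w hV0 hB0 hA0 hV hB hA1 (by linarith) (by linarith)
      (hAle V hV0 fun i => (hS3 L₀ hL₀ i).trans
        (mul_le_mul_of_nonneg_left (hS2 L₀ hL₀ i).1 hC₁.le))
      (hAle B hB0 fun i => (hS'3 M₀ hM₀ i).trans
        (mul_le_mul_of_nonneg_left (hS'2 M₀ hM₀ i).1 hC₁.le))
      (hPup V w (by linarith) hPV) (hPup B N (by linarith) hPB) hPlow
    rw [hP₁, hP₂, hP₃, ← Finset.prod_mul_distrib, ← Finset.prod_mul_distrib]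
    simp only [← Finset.prod_mul_distrib]
    exact h1
  have j2 : ∀ M ∈ S', ∀ L ∈ S, ∏ i, ∏ j, (1 + C0 * δ * vs L i / vs M j) ≤
      (1 + C0 * 2 ^ (m + 1)) ^ (m * m) * P₃ := by
    intro M hM L hL
    rw [hP₃]
    apply prod_one_add (fun i j => C0 * δ * vs L i / vs M j) (fun i j => δ * (V i / B j)) _
      (fun i j => div_nonneg (mul_nonneg (mul_nonneg hC0 hδ.le) (hvp' L hL i).le) (hvp M hM j).le)
      (fun i j => (mul_pos hδ (div_pos (hV0 i) (hB0 j))).le) (by nlinarith)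
    intro i j
    have h1 : 1 / vs M j ≤ 2 ^ (m + 1) / B j := by
      rw [div_le_div_iff₀ (hvp M hM j) (hB0 j), one_mul]
      exact (hS'2 M hM j).2
    calc C0 * δ * vs L i / vs M j = C0 * δ * vs L i * (1 / vs M j) := by ring
      _ ≤ C0 * δ * V i * (2 ^ (m + 1) / B j) := by
          apply mul_le_mul _ h1 (by have := hvp M hM j; positivity)
            (mul_nonneg (mul_nonneg hC0 hδ.le) (hV0 i).le)
          exact mul_le_mul_of_nonneg_left (hS2 L hL i).1 (mul_nonneg hC0 hδ.le)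
      _ = C0 * 2 ^ (m + 1) * (δ * (V i / B j)) := by ring
      _ ≤ (1 + C0 * 2 ^ (m + 1)) * (δ * (V i / B j)) :=
          mul_le_mul_of_nonneg_right (by linarith) (mul_pos hδ (div_pos (hV0 i) (hB0 j))).le
  -- the sum
  obtain ⟨T, hT⟩ : ∃ T : ENNReal, T = ∑' L : S, (NL (sel L) : ENNReal) ^ 2 := ⟨_, rfl⟩
  obtain ⟨T', hT'⟩ : ∃ T' : ENNReal, T' = ∑' _M : S', (1 : ENNReal) := ⟨_, rfl⟩
  rw [← hT] at i1
  rw [← hT'] at i2
  obtain ⟨P₄, hP₄⟩ : ∃ P₄ : ℝ, P₄ = (1 + C0 * 2 ^ (m + 1)) ^ (m * m) * P₃ := ⟨_, rfl⟩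
  have hP₄0 : 0 ≤ P₄ := by rw [hP₄]; positivity
  have k1 : ∑' M : AddSubgroup (Fin m → ℤ), ∑' L : AddSubgroup (Fin m → ℤ),
      (if M ∈ S' ∧ L ∈ S then
      (NL (sel L) : ENNReal) ^ 2 * ENNReal.ofReal (∏ i, ∏ j, (1 + C0 * δ * vs L i / vs M j))
        else 0) ≤ T' * (T * ENNReal.ofReal P₄) := by
    have e1 : T = ∑' L : AddSubgroup (Fin m → ℤ), (if L ∈ S then (NL (sel L) : ENNReal) ^ 2
        else 0) := by
      rw [hT, tsum_subtype S (fun L => (NL (sel L) : ENNReal) ^ 2)]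
      apply tsum_congr
      intro L
      rw [Set.indicator_apply]
    have e2 : T' = ∑' L : AddSubgroup (Fin m → ℤ), (if L ∈ S' then (1 : ENNReal) else 0) := by
      rw [hT', tsum_subtype S' (fun _ => (1 : ENNReal))]
      apply tsum_congr
      intro L
      rw [Set.indicator_apply]
    rw [e1, e2, ← ENNReal.tsum_mul_right, ← ENNReal.tsum_mul_right]
    apply ENNReal.tsum_le_tsum
    intro M
    rw [← ENNReal.tsum_mul_left]
    apply ENNReal.tsum_le_tsum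
    intro L
    by_cases h1 : M ∈ S'
    · by_cases h2 : L ∈ S
      · rw [if_pos ⟨h1, h2⟩, if_pos h1, if_pos h2, one_mul]
        apply mul_le_mul_right
        rw [hP₄]
        exact ENNReal.ofReal_le_ofReal (j2 M h1 L h2)
      · rw [if_neg (fun h => h2 h.2)]
        exact zero_le
    · rw [if_neg (fun h => h1 h.1)]
      exact zero_le
  have hskV := skw_pos V hV0
  have hskB := skw_pos B hB0
  have hska := skw_pos a ha
  have hNe : 0 < (N : ℝ) ^ (ε - 1) := Real.rpow_pos_of_pos (by linarith) _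
  have k2 : (ENNReal.ofReal (skw B) * ENNReal.ofReal (skw V)) * (T' * (T * ENNReal.ofReal P₄)) ≤
      (ENNReal.ofReal (skw B) * ENNReal.ofReal (skw V)) *
      ENNReal.ofReal ((1 + C0 * 2 ^ (m + 1)) ^ (m * m) * cM * cM * C₄ * C₅ *
        (1 + Real.log H) ^ K₄ * (N : ℝ) ^ (ε - 1) *
        (C₇ * w ^ m * (N : ℝ) ^ m * (1 + δ ^ m * w / N) ^ m * (((2 : ℝ) ^ m) ^ (m * m) * skw a))) := by
    calc (ENNReal.ofReal (skw B) * ENNReal.ofReal (skw V)) * (T' * (T * ENNReal.ofReal P₄))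
        = (ENNReal.ofReal (skw B) * T') * (ENNReal.ofReal (skw V) * T) *
            ENNReal.ofReal P₄ := by ring
      _ ≤ ENNReal.ofReal (C₅ * (N : ℝ) ^ (ε - 1) * (cM * P₂)) *
          ENNReal.ofReal (C₄ * (1 + Real.log H) ^ K₄ * (cM * P₁)) * ENNReal.ofReal P₄ := by
          apply mul_le_mul_left
          exact mul_le_mul' i2 i1
      _ = ENNReal.ofReal ((1 + C0 * 2 ^ (m + 1)) ^ (m * m) * cM * cM * C₄ * C₅ *
        (1 + Real.log H) ^ K₄ * (N : ℝ) ^ (ε - 1) * (P₁ * P₂ * P₃)) := by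
          rw [← ENNReal.ofReal_mul (by positivity), ← ENNReal.ofReal_mul (by positivity), hP₄]
          congr 1
          ring
      _ ≤ ENNReal.ofReal ((1 + C0 * 2 ^ (m + 1)) ^ (m * m) * cM * cM * C₄ * C₅ *
        (1 + Real.log H) ^ K₄ * (N : ℝ) ^ (ε - 1) *
        (C₇ * w ^ m * (N : ℝ) ^ m * (1 + δ ^ m * w / N) ^ m * (((2 : ℝ) ^ m) ^ (m * m) * skw a) * skw V *
          skw B)) := by
          apply ENNReal.ofReal_le_ofReal
          apply mul_le_mul_of_nonneg_left _ (by positivity)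
          refine j3.trans ?_
          apply mul_le_mul_of_nonneg_right _ hskB.le
          apply mul_le_mul_of_nonneg_right _ hskV.le
          exact mul_le_mul_of_nonneg_left (skw_le a A ha hA2 hA3) (by positivity)
      _ = _ := by
          rw [← ENNReal.ofReal_mul hskB.le, ← ENNReal.ofReal_mul (by positivity)]
          congr 1
          ring
  have k3 := (ENNReal.mul_le_mul_iff_right (by
    rw [← ENNReal.ofReal_mul hskB.le, Ne, ENNReal.ofReal_eq_zero, not_le]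
    positivity) (by
    rw [← ENNReal.ofReal_mul hskB.le]; exact ENNReal.ofReal_ne_top)).1 k2
  exact k1.trans k3

/-- the final comparison of the constants -/
lemma fin_cmp3 {m K₄ : ℕ} {C₁ H₀ D₀ D₁ C₇ s y Y t E ε X : ℝ} (hX : 0 ≤ X) (hC₁ : 1 ≤ C₁) (hH₀ : 1 ≤ H₀)
    (hD₀ : 0 ≤ D₀) (hD₁ : 0 ≤ D₁) (hC₇ : 0 ≤ C₇) (hs : 0 ≤ s) (hy : 1 ≤ y) (hY : 1 ≤ Y)
    (ht : 1 ≤ t) (hE0 : 0 ≤ E)
    (hE : E ≤ Real.logb 2 (2 ^ m * (C₁ * (2 ^ m * Y ^ m)) ^ m * (y ^ 2 * t * Real.exp m)) + 2) :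
    (2 * E + 1) ^ m * (2 * E + 1) ^ m * (D₀ * (1 + Real.log (H₀ * y ^ 2)) ^ K₄ * t ^ (ε - 1) *
      (C₇ * (y ^ 2) ^ m * t ^ m * X * (D₁ * s))) ≤
    ((2 * ((m * Real.log 2 + m * Real.log C₁ + m * m * Real.log 2 + m * m + 3 + m) /
      Real.log 2) + 5) ^ m) ^ 2 * D₀ * (1 + Real.log H₀ + 2) ^ K₄ * C₇ * D₁ *
      (1 + Real.log (y * Y * t)) ^ (K₄ + 2 * m) * t ^ ((m : ℝ) - 1 + ε) *
      y ^ (2 * m) * X * s := by
  have hl2 : 0 < Real.log 2 := Real.log_pos (by norm_num)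
  have hly : 0 ≤ Real.log y := Real.log_nonneg hy
  have hlY : 0 ≤ Real.log Y := Real.log_nonneg hY
  have hlt : 0 ≤ Real.log t := Real.log_nonneg ht
  have hlC : 0 ≤ Real.log C₁ := Real.log_nonneg hC₁
  have hlH : 0 ≤ Real.log H₀ := Real.log_nonneg hH₀
  have ht0 : 0 < t := by linarith
  have hyY : Real.log (y * Y * t) = Real.log y + Real.log Y + Real.log t := by
    rw [Real.log_mul (by positivity) (by linarith), Real.log_mul (by linarith) (by linarith)]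
  obtain ⟨l, hl⟩ : ∃ l, l = 1 + Real.log (y * Y * t) := ⟨_, rfl⟩
  have hl1 : 1 ≤ l := by rw [hl, hyY]; linarith
  have e1 : Real.log (H₀ * y ^ 2) = Real.log H₀ + 2 * Real.log y := by
    rw [Real.log_mul (by linarith) (by positivity), Real.log_pow]; push_cast; ring
  have e2 : Real.log (2 ^ m * (C₁ * (2 ^ m * Y ^ m)) ^ m * (y ^ 2 * t * Real.exp m)) =
      m * Real.log 2 + m * (Real.log C₁ + (m * Real.log 2 + m * Real.log Y)) +
        (2 * Real.log y + Real.log t + m) := by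
    have hC0 : C₁ ≠ 0 := by linarith
    have hY0 : Y ≠ 0 := by linarith
    have hy0 : y ≠ 0 := by linarith
    rw [Real.log_mul (by positivity) (by positivity), Real.log_mul (by positivity) (by positivity),
      Real.log_pow, Real.log_pow, Real.log_mul hC0 (by positivity),
      Real.log_mul (by positivity) (by positivity), Real.log_pow, Real.log_pow,
      Real.log_mul (by positivity) (by positivity), Real.log_mul (by positivity) ht0.ne',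
      Real.log_pow, Real.log_exp]
    push_cast
    ring
  have hm0 : (0 : ℝ) ≤ m := Nat.cast_nonneg m
  -- the class count
  obtain ⟨A, hA⟩ : ∃ A, A = (2 * ((m * Real.log 2 + m * Real.log C₁ + m * m * Real.log 2 +
      m * m + 3 + m) / Real.log 2) + 5) := ⟨_, rfl⟩
  have f1 : 2 * E + 1 ≤ A * l := by
    have g1 : Real.logb 2 (2 ^ m * (C₁ * (2 ^ m * Y ^ m)) ^ m * (y ^ 2 * t * Real.exp m)) ≤
        (m * Real.log 2 + m * Real.log C₁ + m * m * Real.log 2 + m * m + 3 + m) /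
          Real.log 2 * l := by
      rw [Real.logb, e2, div_mul_eq_mul_div]
      apply div_le_div_of_nonneg_right _ hl2.le
      rw [hl, hyY]
      have q1 : 0 ≤ m * Real.log 2 := mul_nonneg hm0 hl2.le
      have q2 : 0 ≤ m * Real.log C₁ := mul_nonneg hm0 hlC
      have q3 : 0 ≤ m * m * Real.log 2 := mul_nonneg (mul_nonneg hm0 hm0) hl2.le
      have q4 : (0 : ℝ) ≤ m * m := mul_nonneg hm0 hm0
      have r1 : 0 ≤ Real.log y + Real.log Y + Real.log t := by linarith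
      have r2 : (0 : ℝ) ≤ (m * m) * Real.log y := mul_nonneg q4 hly
      have r3 : (0 : ℝ) ≤ (m * m) * Real.log t := mul_nonneg q4 hlt
      nlinarith [mul_nonneg q1 r1, mul_nonneg q2 r1, mul_nonneg q3 r1, mul_nonneg hm0 r1]
    rw [hA]
    calc 2 * E + 1 ≤ 2 * ((m * Real.log 2 + m * Real.log C₁ + m * m * Real.log 2 + m * m +
          3 + m) / Real.log 2 * l) + 5 := by linarith
      _ ≤ _ := by
          rw [add_mul, mul_assoc]
          linarith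
  have f2 : 1 + Real.log (H₀ * y ^ 2) ≤ (1 + Real.log H₀ + 2) * l := by
    rw [e1, hl, hyY]
    nlinarith [mul_nonneg hlH hly, mul_nonneg hlH hlY, mul_nonneg hlH hlt]
  have f3 : 0 ≤ 1 + Real.log (H₀ * y ^ 2) := by rw [e1]; linarith
  have p1 : (2 * E + 1) ^ m ≤ (A * l) ^ m := pow_le_pow_left₀ (by linarith) f1 m
  have p2 : (1 + Real.log (H₀ * y ^ 2)) ^ K₄ ≤ ((1 + Real.log H₀ + 2) * l) ^ K₄ :=
    pow_le_pow_left₀ f3 f2 K₄
  have hte : 0 < t ^ (ε - 1) := Real.rpow_pos_of_pos ht0 _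
  have hrp : t ^ ((m : ℝ) - 1 + ε) = t ^ (ε - 1) * t ^ m := by
    rw [← Real.rpow_natCast t m, ← Real.rpow_add ht0]
    congr 1
    ring
  have hA0 : 0 ≤ A := by rw [hA]; positivity
  have hAl : 0 ≤ (A * l) ^ m := by positivity
  have hE1 : 0 ≤ (2 * E + 1) ^ m := by positivity
  have p3 : (2 * E + 1) ^ m * (2 * E + 1) ^ m ≤ (A * l) ^ m * (A * l) ^ m :=
    mul_le_mul p1 p1 hE1 hAl
  rw [← hl, ← hA, hrp]
  calc (2 * E + 1) ^ m * (2 * E + 1) ^ m * (D₀ * (1 + Real.log (H₀ * y ^ 2)) ^ K₄ *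
      t ^ (ε - 1) * (C₇ * (y ^ 2) ^ m * t ^ m * X * (D₁ * s))) ≤
      (A * l) ^ m * (A * l) ^ m * (D₀ * ((1 + Real.log H₀ + 2) * l) ^ K₄ * t ^ (ε - 1) *
      (C₇ * (y ^ 2) ^ m * t ^ m * X * (D₁ * s))) := by
        apply mul_le_mul p3 _ (by positivity) (by positivity)
        apply mul_le_mul_of_nonneg_right _ (by positivity)
        apply mul_le_mul_of_nonneg_right _ hte.le
        exact mul_le_mul_of_nonneg_left p2 hD₀
    _ = _ := by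
        rw [mul_pow, mul_pow, pow_add, pow_mul, two_mul, pow_add]
        ring

theorem pf_EGMD : T_EG3D → T_CNX → T_CNT → T_CMA → T_IDX → T_DAV → T_MUL → T_EGMD := by
  classical
  intro hEG3 hCNX hCNT hCMA hIDX hDAV hMUL m hm C0 ε hC0 hε
  obtain ⟨C₁', hC₁'0, hC₁'⟩ := hCMA m 1 hm zero_lt_one
  obtain ⟨C₁, hC₁e⟩ : ∃ C₁ : ℝ, C₁ = max C₁' 1 := ⟨_, rfl⟩
  have hC₁1 : 1 ≤ C₁ := by rw [hC₁e]; exact le_max_right _ _
  have hC₁l : C₁' ≤ C₁ := by rw [hC₁e]; exact le_max_left _ _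
  obtain ⟨C₂, hC₂, hMUL⟩ := hMUL m hm
  obtain ⟨C₄, K₄, hC₄, hDAV⟩ := hDAV m hm
  obtain ⟨C₅, hC₅, hCNX⟩ := hCNX m hm ε hε
  have hc7 : (0 : ℝ) < 2 ^ m * C₁ + (2 ^ (m + 1)) ^ m := by positivity
  obtain ⟨C₇, hC₇, hEG3⟩ := hEG3 m _ hm hc7
  obtain ⟨H₀, hH₀⟩ : ∃ H₀ : ℝ, H₀ = m.factorial * (C₂ * (m * 2 ^ m) * 2 ^ (m + 1)) ^ m *
    Real.exp m := ⟨_, rfl⟩
  have hm1 : (1 : ℝ) ≤ m := by exact_mod_cast hm
  have h2m : (1 : ℝ) ≤ 2 ^ m := one_le_pow₀ (by norm_num)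
  have h2m1 : (1 : ℝ) ≤ 2 ^ (m + 1) := one_le_pow₀ (by norm_num)
  have hH₀1 : 1 ≤ H₀ := by
    rw [hH₀]
    have hfac : (1 : ℝ) ≤ m.factorial := by
      exact_mod_cast Nat.one_le_iff_ne_zero.2 (Nat.factorial_ne_zero m)
    have hexp : 1 ≤ Real.exp m := Real.one_le_exp (by linarith)
    have hM : (1 : ℝ) ≤ m * 2 ^ m := by nlinarith
    have h1 : 1 ≤ C₂ * (m * 2 ^ m) := by nlinarith
    have hCM2 : 1 ≤ (C₂ * (m * 2 ^ m) * 2 ^ (m + 1)) ^ m := one_le_pow₀ (by nlinarith)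
    have h2 : 1 ≤ m.factorial * (C₂ * (m * 2 ^ m) * 2 ^ (m + 1)) ^ m := by nlinarith
    nlinarith
  obtain ⟨D₀, hD₀⟩ : ∃ D₀ : ℝ, D₀ = (1 + C0 * 2 ^ (m + 1)) ^ (m * m) *
        (1 + C₂ * (m * 2 ^ m) * 2 ^ m) ^ (m * m) * (1 + C₂ * (m * 2 ^ m) * 2 ^ m) ^ (m * m) *
        C₄ * C₅ := ⟨_, rfl⟩
  have hD₀0 : 0 < D₀ := by
    rw [hD₀]
    have : 0 < C₂ := by linarith
    positivity
  have hl2 : 0 < Real.log 2 := Real.log_pos (by norm_num)
  have hlC : 0 ≤ Real.log C₁ := Real.log_nonneg hC₁1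
  have hlH : 0 ≤ Real.log H₀ := Real.log_nonneg hH₀1
  refine ⟨((2 * ((m * Real.log 2 + m * Real.log C₁ + m * m * Real.log 2 + m * m + 3 + m) /
      Real.log 2) + 5) ^ m) ^ 2 * D₀ * (1 + Real.log H₀ + 2) ^ K₄ * C₇ *
      ((2 : ℝ) ^ m) ^ (m * m), K₄ + 2 * m, by positivity, ?_⟩
  intro N hN b n a k hs haN1 haN2 Y hY hgap y δ hy hδ hδ1 sel vs hsel
  have hN1 : (1 : ℝ) ≤ N := by exact_mod_cast hN
  -- determinants
  have hdetE : aN b ^ m = |b.det| := bdd_aN_pow hm b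
  have hdet1 : 1 ≤ |b.det| := by rw [← hdetE]; exact one_le_pow₀ haN1
  have hdet2 : |b.det| ≤ Real.exp m := by
    rw [← hdetE]
    calc aN b ^ m ≤ Real.exp 1 ^ m := pow_le_pow_left₀ (by linarith) haN2.le m
      _ = Real.exp m := by rw [← Real.exp_nat_mul, mul_one]
  have ha0 := hs.pos
  have hprod : |b.det| = ∏ j, a j := (hCNT m b n a k hs).2.2.2
  obtain ⟨R, hR⟩ : ∃ R : ℝ, R = 2 ^ m * Y ^ m := ⟨_, rfl⟩
  have hYm : 1 ≤ Y ^ m := one_le_pow₀ hY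
  have hR1 : 1 ≤ R := by rw [hR]; nlinarith
  have hRa : ∀ i, 1 ≤ R * a i := by
    apply a_low a R ha0 hR1 _ (by rw [← hprod]; exact hdet1)
    intro i j
    rw [hR]
    exact chain2 a Y hY ha0 hgap hs.ord i j
  -- comparison with the sublattices
  have hCv : ∀ L : AddSubgroup (Fin m → ℤ), L.index ≠ 0 → ∀ i, a i ≤ C₁ * vs L i := by
    intro L hL i
    obtain ⟨n', k', hs'⟩ := hsel.sgl L hL
    have h1 := hC₁' b n a k (cR (sel L) * b) n' (vs L) k' (sel L) 1 hs hs' (hsel.det L hL)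
      (by rw [Matrix.det_one]; exact one_ne_zero) sz_one (by rw [mul_one]) i
    exact h1.trans (mul_le_mul_of_nonneg_right hC₁l (hs'.pos i).le)
  have hvpos : ∀ L : AddSubgroup (Fin m → ℤ), L.index ≠ 0 → ∀ i, 0 < vs L i := by
    intro L hL i
    obtain ⟨n', k', hs'⟩ := hsel.sgl L hL
    exact hs'.pos i
  have hPv : ∀ L : AddSubgroup (Fin m → ℤ), L.index ≠ 0 →
      ∏ i, vs L i = (L.index : ℝ) * |b.det| := by
    intro L hL
    obtain ⟨n', k', hs'⟩ := hsel.sgl L hL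
    rw [← (hCNT m _ n' (vs L) k' hs').2.2.2, Matrix.det_mul, abs_mul, det_cR]
    congr 1
    have h1 := (hIDX m).1 (sel L) (hsel.det L hL)
    rw [hsel.gen L hL] at h1
    rw [h1, Nat.cast_natAbs, Int.cast_abs]
  -- monotone majorants
  have hmaj : ∀ L : AddSubgroup (Fin m → ℤ), ∃ A : Fin m → ℝ, L.index ≠ 0 →
      (Monotone A ∧ (∀ j, vs L j ≤ A j) ∧ (∀ j, A j ≤ 2 ^ m * vs L j) ∧ ∀ j, 0 < A j) := by
    intro L
    by_cases hL : L.index = 0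
    · exact ⟨fun _ => 1, fun h => absurd hL h⟩
    · obtain ⟨n', k', hs'⟩ := hsel.sgl L hL
      obtain ⟨A, hA⟩ := majo (vs L) hs'.pos hs'.ord
      exact ⟨A, fun _ => hA⟩
  choose W hW using hmaj
  obtain ⟨A, hA1, hA2, hA3, hA0⟩ := majo a ha0 hs.ord
  obtain ⟨w, hw⟩ : ∃ w : ℝ, w = y ^ 2 := ⟨_, rfl⟩
  have hw1 : 1 ≤ w := by rw [hw]; exact one_le_pow₀ hy
  have hwN1 : 1 ≤ w * N := by nlinarith
  obtain ⟨P, hP⟩ : ∃ P : ℝ, P = w * N * Real.exp m := ⟨_, rfl⟩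
  have hexp : 1 ≤ Real.exp m := Real.one_le_exp (by linarith)
  have hP1 : 1 ≤ P := by rw [hP]; nlinarith
  obtain ⟨Q, hQ⟩ : ∃ Q : ℝ, Q = 2 ^ m * (C₁ * R) ^ m * P := ⟨_, rfl⟩
  have hCR1 : 1 ≤ C₁ * R := by nlinarith
  have hCRm : C₁ * R ≤ (C₁ * R) ^ m := le_self_pow₀ hCR1 (by omega)
  have hCRm1 : 1 ≤ (C₁ * R) ^ m := hCR1.trans hCRm
  have hQ1 : C₁ * R ≤ Q := by
    rw [hQ]
    have h1 : (C₁ * R) ^ m ≤ 2 ^ m * (C₁ * R) ^ m := le_mul_of_one_le_left (by linarith) h2m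
    have h2 : 2 ^ m * (C₁ * R) ^ m ≤ 2 ^ m * (C₁ * R) ^ m * P :=
      le_mul_of_one_le_right (by positivity) hP1
    linarith
  obtain ⟨Λ, hΛ⟩ : ∃ Λ : ℝ, Λ = Real.logb 2 Q := ⟨_, rfl⟩
  have hQ0 : 0 < Q := by linarith
  have hΛQ : (2 : ℝ) ^ Λ = Q := by
    rw [hΛ]; exact Real.rpow_logb (by norm_num) (by norm_num) hQ0
  have hΛ0 : 0 ≤ Λ := by rw [hΛ]; exact Real.logb_nonneg (by norm_num) (by linarith)
  -- the classes
  have hdy : ∀ L : AddSubgroup (Fin m → ℤ), L.index ≠ 0 → ∏ i, vs L i ≤ P → ∀ i,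
      W L i ≤ (2 : ℝ) ^ ⌈Real.logb 2 (W L i)⌉ ∧
      (2 : ℝ) ^ ⌈Real.logb 2 (W L i)⌉ ≤ 2 * W L i ∧
      -Λ ≤ (⌈Real.logb 2 (W L i)⌉ : ℝ) ∧ (⌈Real.logb 2 (W L i)⌉ : ℝ) ≤ Λ + 1 := by
    intro L hLi hLP i
    obtain ⟨w1, w2, w3, w4⟩ := hW L hLi
    have hv1 : ∀ j, 1 ≤ (C₁ * R) * vs L j := by
      intro j
      calc (1 : ℝ) ≤ R * a j := hRa j
        _ ≤ R * (C₁ * vs L j) := mul_le_mul_of_nonneg_left (hCv L hLi j) (by linarith)
        _ = _ := by ring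
    apply dyad _ _ (w4 i)
    · rw [hΛQ]
      calc (1 : ℝ) ≤ (C₁ * R) * vs L i := hv1 i
        _ ≤ Q * W L i := mul_le_mul hQ1 (w2 i) (hvpos L hLi i).le hQ0.le
    · rw [hΛQ]
      have h1 := one_factor (vs L) (C₁ * R) P hv1 hCR1 (hvpos L hLi) hLP i
      calc W L i ≤ 2 ^ m * vs L i := w3 i
        _ ≤ 2 ^ m * ((C₁ * R) ^ m * P) := mul_le_mul_of_nonneg_left h1 (by positivity)
        _ = Q := by rw [hQ]; ring
  obtain ⟨κ, hκ⟩ : ∃ κ : AddSubgroup (Fin m → ℤ) → Fin m → ℤ, κ = fun L i =>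
    ⌈Real.logb 2 (W L i)⌉ := ⟨_, rfl⟩
  obtain ⟨E, hE⟩ : ∃ E : ℕ, E = ⌈Λ⌉₊ + 1 := ⟨_, rfl⟩
  have hEl : Λ + 1 ≤ E := by
    rw [hE]; push_cast
    linarith [Nat.le_ceil Λ]
  have hEu : (E : ℝ) ≤ Λ + 2 := by
    rw [hE]; push_cast
    linarith [Nat.ceil_lt_add_one hΛ0]
  obtain ⟨KK, hKK⟩ : ∃ KK : Finset (Fin m → ℤ), KK =
    Fintype.piFinset (fun _ => Finset.Icc (-(E : ℤ)) E) := ⟨_, rfl⟩
  have hcard : (KK.card : ℝ) = (2 * (E : ℝ) + 1) ^ m := by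
    rw [hKK, Fintype.card_piFinset]
    simp only [Int.card_Icc, Finset.prod_const, Finset.card_univ, Fintype.card_fin]
    push_cast
    congr 1
    have : ((E : ℤ) + 1 - -(E : ℤ)).toNat = 2 * E + 1 := by omega
    rw [this]
    push_cast
    ring
  have hmem : ∀ L : AddSubgroup (Fin m → ℤ), L.index ≠ 0 → ∏ i, vs L i ≤ P → κ L ∈ KK := by
    intro L hL hLP
    rw [hKK, Fintype.mem_piFinset]
    intro i
    rw [Finset.mem_Icc, hκ]
    obtain ⟨-, -, d3, d4⟩ := hdy L hL hLP i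
    constructor
    · have : (-(E : ℝ)) ≤ (⌈Real.logb 2 (W L i)⌉ : ℝ) := by linarith
      exact_mod_cast this
    · have : (⌈Real.logb 2 (W L i)⌉ : ℝ) ≤ (E : ℝ) := by linarith
      exact_mod_cast this
  obtain ⟨cond, hcond⟩ : ∃ cond : AddSubgroup (Fin m → ℤ) → Prop, cond = fun L =>
    y ^ 2 / 4 < (L.index : ℝ) ∧ (L.index : ℝ) ≤ y ^ 2 := ⟨_, rfl⟩
  have hci : ∀ L, cond L → L.index ≠ 0 := by
    intro L hL h0
    rw [hcond] at hL
    have := hL.1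
    rw [h0] at this
    push_cast at this
    nlinarith
  have hcP : ∀ L, cond L → ∏ i, vs L i ≤ w * |b.det| := by
    intro L hL
    rw [hPv L (hci L hL)]
    apply mul_le_mul_of_nonneg_right _ (abs_nonneg _)
    rw [hcond] at hL
    rw [hw]
    exact hL.2
  have hcP' : ∀ L, cond L → ∏ i, vs L i ≤ P := by
    intro L hL
    refine (hcP L hL).trans ?_
    rw [hP]
    exact mul_le_mul (by nlinarith) hdet2 (abs_nonneg _) (by positivity)
  have hNi : ∀ M : AddSubgroup (Fin m → ℤ), M.index = N → M.index ≠ 0 := fun M h => by omega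
  have hNP : ∀ M : AddSubgroup (Fin m → ℤ), M.index = N → ∏ i, vs M i = N * |b.det| := by
    intro M h
    rw [hPv M (hNi M h), h]
  have hNP' : ∀ M : AddSubgroup (Fin m → ℤ), M.index = N → ∏ i, vs M i ≤ P := by
    intro M h
    rw [hNP M h, hP]
    exact mul_le_mul (by nlinarith) hdet2 (abs_nonneg _) (by positivity)
  obtain ⟨F, hF⟩ : ∃ F : AddSubgroup (Fin m → ℤ) → AddSubgroup (Fin m → ℤ) → ENNReal,
    F = fun M L => (NL (sel L) : ENNReal) ^ 2 *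
      ENNReal.ofReal (∏ i, ∏ j, (1 + C0 * δ * vs L i / vs M j)) := ⟨_, rfl⟩
  obtain ⟨B, hB⟩ : ∃ B : ℝ, B = D₀ * (1 + Real.log (H₀ * w)) ^ K₄ * (N : ℝ) ^ (ε - 1) *
    (C₇ * w ^ m * (N : ℝ) ^ m * (1 + δ ^ m * w / N) ^ m * (((2 : ℝ) ^ m) ^ (m * m) * skw a)) :=
      ⟨_, rfl⟩
  have hskw := skw_pos a ha0
  have hmono : ∀ (L₁ : AddSubgroup (Fin m → ℤ)), L₁.index ≠ 0 → ∀ v : Fin m → ℤ, κ L₁ = v →
      Monotone (fun i => (2 : ℝ) ^ (v i)) := by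
    intro L₁ hL₁ v hκ₁ i j hij
    apply zpow_le_zpow_right₀ (by norm_num)
    rw [← hκ₁, hκ]
    apply Int.ceil_mono
    apply Real.logb_le_logb_of_le (by norm_num) ((hW L₁ hL₁).2.2.2 i)
    exact (hW L₁ hL₁).1 hij
  have hS2 : ∀ (L : AddSubgroup (Fin m → ℤ)), L.index ≠ 0 → ∏ i, vs L i ≤ P →
      ∀ v : Fin m → ℤ, κ L = v → ∀ i, vs L i ≤ (2 : ℝ) ^ (v i) ∧
        (2 : ℝ) ^ (v i) ≤ 2 ^ (m + 1) * vs L i := by
    intro L hLi hLP v hv i
    obtain ⟨d1, d2, -, -⟩ := hdy L hLi hLP i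
    obtain ⟨w1, w2, w3, w4⟩ := hW L hLi
    have e : (2 : ℝ) ^ (v i) = (2 : ℝ) ^ ⌈Real.logb 2 (W L i)⌉ := by
      rw [← hv, hκ]
    rw [e]
    constructor
    · exact (w2 i).trans d1
    · calc _ ≤ 2 * W L i := d2
        _ ≤ 2 * (2 ^ m * vs L i) := by linarith [w3 i]
        _ = 2 ^ (m + 1) * vs L i := by ring
  have hclass : ∀ p : (Fin m → ℤ) × (Fin m → ℤ),
      ∑' M : AddSubgroup (Fin m → ℤ), ∑' L : AddSubgroup (Fin m → ℤ),
      (if (M.index = N ∧ κ M = p.1) ∧ (cond L ∧ κ L = p.2) then F M L else 0) ≤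
        ENNReal.ofReal B := by
    rintro ⟨v', v⟩
    by_cases hne : ∃ M L, (M.index = N ∧ κ M = v') ∧ (cond L ∧ κ L = v)
    · obtain ⟨M₁, L₁, ⟨hM₁, hκM⟩, hL₁, hκ₁⟩ := hne
      have h1 := clsPD (C₁ := C₁) (C0 := C0) hm hδ (by linarith) hC₂ hC₄ hC₅ hC0 hCNT hIDX hMUL hDAV
        hCNX (fun U B A Q w g1 g2 g3 g4 g5 g6 g7 g8 => hEG3 U B A Q w δ g1 g2 g3 g4 g5 g6 g7 g8 hδ)
        hC₇ hs
        hdet1 hdet2 hA1 hA2 hA3 (V := fun i => (2 : ℝ) ^ (v i)) (B := fun i => (2 : ℝ) ^ (v' i))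
        (fun i => zpow_pos (by norm_num) _) (hmono L₁ (hci L₁ hL₁) v hκ₁)
        (fun i => zpow_pos (by norm_num) _) (hmono M₁ (hNi M₁ hM₁) v' hκM) hN hw1
        {L | cond L ∧ κ L = v} {M | M.index = N ∧ κ M = v'} sel vs hsel
        (fun L hL => hci L hL.1)
        (fun L hL i => hS2 L (hci L hL.1) (hcP' L hL.1) v hL.2 i)
        (fun L hL i => hCv L (hci L hL.1) i) (fun L hL => hcP L hL.1)
        (fun M hM => hM.1)
        (fun M hM i => hS2 M (hNi M hM.1) (hNP' M hM.1) v' hM.2 i)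
        (fun M hM i => hCv M (hNi M hM.1) i) (fun M hM => hNP M hM.1)
      have e1 : (∑' M : AddSubgroup (Fin m → ℤ), ∑' L : AddSubgroup (Fin m → ℤ),
          (if (M.index = N ∧ κ M = v') ∧ (cond L ∧ κ L = v) then F M L else 0)) =
          ∑' M : AddSubgroup (Fin m → ℤ), ∑' L : AddSubgroup (Fin m → ℤ),
          (if M ∈ {M | M.index = N ∧ κ M = v'} ∧ L ∈ {L | cond L ∧ κ L = v} then
            (NL (sel L) : ENNReal) ^ 2 *
              ENNReal.ofReal (∏ i, ∏ j, (1 + C0 * δ * vs L i / vs M j)) else 0) := by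
        apply tsum_congr
        intro M
        apply tsum_congr
        intro L
        rw [hF]
        simp only [Set.mem_setOf_eq]
      rw [e1, hB, hD₀, hH₀]
      convert h1
    · have e1 : ∀ M L, (if (M.index = N ∧ κ M = v') ∧ (cond L ∧ κ L = v) then F M L else 0) =
          0 := by
        intro M L
        rw [if_neg]
        exact fun h => hne ⟨M, L, h⟩
      simp only [e1, tsum_zero, zero_le]
  have htot : ∑' M : AddSubgroup (Fin m → ℤ), ∑' L : AddSubgroup (Fin m → ℤ),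
      (if M.index = N ∧ cond L then F M L else 0) ≤
      ((KK ×ˢ KK).card : ENNReal) * ENNReal.ofReal B := by
    calc ∑' M : AddSubgroup (Fin m → ℤ), ∑' L : AddSubgroup (Fin m → ℤ),
        (if M.index = N ∧ cond L then F M L else 0) ≤
        ∑' M : AddSubgroup (Fin m → ℤ), ∑' L : AddSubgroup (Fin m → ℤ), ∑ p ∈ KK ×ˢ KK,
          (if (M.index = N ∧ κ M = p.1) ∧ (cond L ∧ κ L = p.2) then F M L else 0) := by
          apply ENNReal.tsum_le_tsum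
          intro M
          apply ENNReal.tsum_le_tsum
          intro L
          by_cases hL : M.index = N ∧ cond L
          · rw [if_pos hL]
            have h1 : (if (M.index = N ∧ κ M = κ M) ∧ (cond L ∧ κ L = κ L) then F M L else 0) =
              F M L := if_pos ⟨⟨hL.1, rfl⟩, hL.2, rfl⟩
            calc F M L = (if (M.index = N ∧ κ M = κ M) ∧ (cond L ∧ κ L = κ L) then F M L
                  else 0) := h1.symm
              _ ≤ _ := Finset.single_le_sum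
                (f := fun p : (Fin m → ℤ) × (Fin m → ℤ) =>
                  if (M.index = N ∧ κ M = p.1) ∧ (cond L ∧ κ L = p.2) then F M L else 0)
                (fun _ _ => zero_le) (a := (κ M, κ L)) (Finset.mem_product.2
                  ⟨hmem M (hNi M hL.1) (hNP' M hL.1), hmem L (hci L hL.2) (hcP' L hL.2)⟩)
          · rw [if_neg hL]; exact zero_le
      _ = ∑' M : AddSubgroup (Fin m → ℤ), ∑ p ∈ KK ×ˢ KK, ∑' L : AddSubgroup (Fin m → ℤ),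
          (if (M.index = N ∧ κ M = p.1) ∧ (cond L ∧ κ L = p.2) then F M L else 0) :=
          tsum_congr fun M => Summable.tsum_finsetSum (fun _ _ => ENNReal.summable)
      _ = ∑ p ∈ KK ×ˢ KK, ∑' M : AddSubgroup (Fin m → ℤ), ∑' L : AddSubgroup (Fin m → ℤ),
          (if (M.index = N ∧ κ M = p.1) ∧ (cond L ∧ κ L = p.2) then F M L else 0) :=
          Summable.tsum_finsetSum (fun _ _ => ENNReal.summable)
      _ ≤ ∑ _p ∈ KK ×ˢ KK, ENNReal.ofReal B := Finset.sum_le_sum fun p _ => hclass p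
      _ = _ := by rw [Finset.sum_const, nsmul_eq_mul]
  have e0 : (∑' M : AddSubgroup (Fin m → ℤ), ∑' L : AddSubgroup (Fin m → ℤ),
      (if M.index = N ∧ y ^ 2 / 4 < (L.index : ℝ) ∧ (L.index : ℝ) ≤ y ^ 2 then
        (NL (sel L) : ENNReal) ^ 2 * ENNReal.ofReal (∏ i, ∏ j, (1 + C0 * δ * vs L i / vs M j))
          else 0)) =
      ∑' M : AddSubgroup (Fin m → ℤ), ∑' L : AddSubgroup (Fin m → ℤ),
        (if M.index = N ∧ cond L then F M L else 0) := by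
    apply tsum_congr
    intro M
    apply tsum_congr
    intro L
    by_cases h : M.index = N ∧ cond L
    · have h' := h
      rw [hcond] at h'
      rw [if_pos h, if_pos h', hF]
    · have h' := h
      rw [hcond] at h'
      rw [if_neg h, if_neg h']
  rw [e0]
  refine htot.trans ?_
  rw [show ((KK ×ˢ KK).card : ENNReal) = ENNReal.ofReal ((KK.card : ℝ) * KK.card) by
    rw [Finset.card_product, ← Nat.cast_mul, ENNReal.ofReal_natCast],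
    ← ENNReal.ofReal_mul (by positivity), hcard]
  apply ENNReal.ofReal_le_ofReal
  rw [hB, hw]
  apply fin_cmp3 (by positivity) hC₁1 hH₀1 hD₀0.le (by positivity) hC₇.le hskw.le hy hY hN1
    (Nat.cast_nonneg E)
  rw [← hR, ← hw, ← hP, ← hQ, ← hΛ]
  exact hEu

end Pool.Agent.H27.L1.H16.GB
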