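import Pool.Agent.H27.L1.H16.GB.TargetsA
import Pool.Agent.H27.L1.H30.GU.EG3

/-!
Row EG3D of the board gb: the product estimate for three lattices with a shift (after helper30's row
EG3).
-/

set_option autoImplicit false

namespace Pool.Agent.H27.L1.H16.GB

open MeasureTheory Pool.Agent.H27.L1.H34.GM Pool.Agent.H27.L1.H34.GZ Pool.Agent.H27.L1.H34.GU Pool.Agent.H27.L1.H30.GU

theorem one_add_le_twoD (u b K δ d : ℝ) (hδ : 0 < δ) (hd : d = -Real.log δ) (hu : 0 < u)
    (hb : 0 < b) (hK : 1 ≤ K) :
    1 + δ * (u / b) ≤ 2 * Real.exp (max (Real.log (K * u) - Real.log (K * b) - d) 0) := by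
  have hK0 : 0 < K := by linarith
  have h1 : Real.exp (Real.log (K * u) - Real.log (K * b) - d) = δ * (u / b) := by
    rw [hd, sub_neg_eq_add, Real.exp_add, Real.exp_log hδ, Real.exp_sub,
      Real.exp_log (by positivity), Real.exp_log (by positivity)]
    field_simp
  rw [exp_max, h1]
  linarith [le_max_left (δ * (u / b)) 1, le_max_right (δ * (u / b)) 1]

theorem pf_EG3D (h1 : T_IN3D) : T_EG3D := by
  intro m c hm hc
  set K : ℝ := max c 1 with hKdef
  have hK1 : 1 ≤ K := le_max_right _ _
  have hcK : c ≤ K := le_max_left _ _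
  have hK0 : 0 < K := by linarith
  refine ⟨(8 * K ^ 2) ^ (m * m) * (K ^ 4) ^ m, by positivity, ?_⟩
  intro U B A Q w δ hU hB hA mU mB mA hQ hw hδ a1 a2 b1 b2 b3
  obtain ⟨d, hd⟩ : ∃ d : ℝ, d = -Real.log δ := ⟨_, rfl⟩
  have pU : 0 < ∏ i, U i := Finset.prod_pos fun i _ => hU i
  have pB : 0 < ∏ i, B i := Finset.prod_pos fun i _ => hB i
  have pA : 0 < ∏ i, A i := Finset.prod_pos fun i _ => hA i
  have a1' : ∀ i, A i ≤ K * U i := fun i =>
    (a1 i).trans (mul_le_mul_of_nonneg_right hcK (hU i).le)
  have a2' : ∀ i, A i ≤ K * B i := fun i =>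
    (a2 i).trans (mul_le_mul_of_nonneg_right hcK (hB i).le)
  have b1' : (∏ i, U i) / ∏ i, A i ≤ K * w := by
    rw [div_le_iff₀ pA]
    exact b1.trans (mul_le_mul_of_nonneg_right (mul_le_mul_of_nonneg_right hcK hw.le) pA.le)
  have b2' : (∏ i, B i) / ∏ i, A i ≤ K * Q := by
    rw [div_le_iff₀ pA]
    exact b2.trans (mul_le_mul_of_nonneg_right (mul_le_mul_of_nonneg_right hcK hQ.le) pA.le)
  have b3' : (∏ i, U i) / ∏ i, B i ≤ K ^ 2 * (w / Q) := by
    rw [div_le_iff₀ pB]
    have h2 : Q * ∏ i, A i ≤ K * ∏ i, B i :=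
      b3.trans (mul_le_mul_of_nonneg_right hcK pB.le)
    have h3 : ∏ i, U i ≤ K * w * ∏ i, A i :=
      b1.trans (mul_le_mul_of_nonneg_right (mul_le_mul_of_nonneg_right hcK hw.le) pA.le)
    calc ∏ i, U i ≤ K * w * ∏ i, A i := h3
      _ = K * (w / Q) * (Q * ∏ i, A i) := by field_simp
      _ ≤ K * (w / Q) * (K * ∏ i, B i) := mul_le_mul_of_nonneg_left h2 (by positivity)
      _ = K ^ 2 * (w / Q) * ∏ i, B i := by ring
  -- the logarithms
  have lU : ∀ i j : Fin m, i ≤ j → Real.log (K * U i) ≤ Real.log (K * U j) := fun i j h =>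
    Real.log_le_log (mul_pos hK0 (hU i)) (mul_le_mul_of_nonneg_left (mU h) hK0.le)
  have lB : ∀ i j : Fin m, i ≤ j → Real.log (K * B i) ≤ Real.log (K * B j) := fun i j h =>
    Real.log_le_log (mul_pos hK0 (hB i)) (mul_le_mul_of_nonneg_left (mB h) hK0.le)
  have lA : ∀ i j : Fin m, i ≤ j → Real.log (A i) ≤ Real.log (A j) := fun i j h =>
    Real.log_le_log (hA i) (mA h)
  have hin := h1 m (fun i => Real.log (K * U i)) (fun i => Real.log (A i))
    (fun i => Real.log (K * B i)) d lU lA lB
    (fun i => Real.log_le_log (hA i) (a1' i)) (fun i => Real.log_le_log (hA i) (a2' i))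
  -- the bound of each factor
  have hfac : ∀ i j, (1 + U i / A j) * (1 + B i / A j) * (1 + δ * (U i / B j)) ≤
      (8 * K ^ 2) * ((U i / A j) * (B i / A j)) * Real.exp
        (max (Real.log (A j) - Real.log (K * U i)) 0 + max (Real.log (A j) - Real.log (K * B i)) 0 +
          max (Real.log (K * U i) - Real.log (K * B j) - d) 0) := by
    intro i j
    have e1 := one_add_le_one (U i) (A j) K (hU i) (hA j) hK1
    have e2 := one_add_le_one (B i) (A j) K (hB i) (hA j) hK1
    have e3 := one_add_le_twoD (U i) (B j) K δ d hδ hd (hU i) (hB j) hK1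
    have q1 : 0 < U i / A j := div_pos (hU i) (hA j)
    have q2 : 0 < B i / A j := div_pos (hB i) (hA j)
    have q3 : 0 < δ * (U i / B j) := mul_pos hδ (div_pos (hU i) (hB j))
    rw [Real.exp_add, Real.exp_add]
    calc (1 + U i / A j) * (1 + B i / A j) * (1 + δ * (U i / B j))
        ≤ (2 * K * (U i / A j) * Real.exp (max (Real.log (A j) - Real.log (K * U i)) 0)) *
          (2 * K * (B i / A j) * Real.exp (max (Real.log (A j) - Real.log (K * B i)) 0)) *
          (2 * Real.exp (max (Real.log (K * U i) - Real.log (K * B j) - d) 0)) := by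
          refine mul_le_mul (mul_le_mul e1 e2 (by positivity) (by positivity)) e3
            (by positivity) (by positivity)
      _ = _ := by ring
  have hprod : ∏ i, ∏ j, ((1 + U i / A j) * (1 + B i / A j) * (1 + δ * (U i / B j))) ≤
      ∏ i : Fin m, ∏ j : Fin m, ((8 * K ^ 2) * ((U i / A j) * (B i / A j)) * Real.exp
        (max (Real.log (A j) - Real.log (K * U i)) 0 + max (Real.log (A j) - Real.log (K * B i)) 0 +
          max (Real.log (K * U i) - Real.log (K * B j) - d) 0)) := by
    have q1 : ∀ i j, 0 < U i / A j := fun i j => div_pos (hU i) (hA j)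
    have q2 : ∀ i j, 0 < B i / A j := fun i j => div_pos (hB i) (hA j)
    have q3 : ∀ i j, 0 < δ * (U i / B j) := fun i j => mul_pos hδ (div_pos (hU i) (hB j))
    refine Finset.prod_le_prod (fun i _ => Finset.prod_nonneg fun j _ => ?_) fun i _ =>
      Finset.prod_le_prod (fun j _ => ?_) fun j _ => hfac i j
    · have := q1 i j; have := q2 i j; have := q3 i j; positivity
    · have := q1 i j; have := q2 i j; have := q3 i j; positivity
  have heq : ∏ i : Fin m, ∏ j : Fin m, ((8 * K ^ 2) * ((U i / A j) * (B i / A j)) * Real.exp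
        (max (Real.log (A j) - Real.log (K * U i)) 0 + max (Real.log (A j) - Real.log (K * B i)) 0 +
          max (Real.log (K * U i) - Real.log (K * B j) - d) 0)) =
      (8 * K ^ 2) ^ (m * m) * (((∏ i, U i) / ∏ i, A i) ^ m * ((∏ i, B i) / ∏ i, A i) ^ m) *
        Real.exp (∑ i, ∑ j,
        (max (Real.log (A j) - Real.log (K * U i)) 0 + max (Real.log (A j) - Real.log (K * B i)) 0 +
          max (Real.log (K * U i) - Real.log (K * B j) - d) 0)) := by
    rw [← prod_div_pow, ← prod_div_pow, Real.exp_sum]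
    generalize 8 * K ^ 2 = E
    simp only [Real.exp_sum, Finset.prod_mul_distrib, Finset.prod_const, Finset.card_univ,
      Fintype.card_fin, ← pow_mul]
  have hexp : Real.exp (∑ i, ∑ j,
        (max (Real.log (A j) - Real.log (K * U i)) 0 + max (Real.log (A j) - Real.log (K * B i)) 0 +
          max (Real.log (K * U i) - Real.log (K * B j) - d) 0)) ≤
      (K ^ 2) ^ m * (1 + δ ^ m * w / Q) ^ m * (skw A * skw U * skw B) := by
    refine (Real.exp_le_exp.2 hin).trans ?_
    rw [Real.exp_add]
    have g1 : Real.exp (m * max (∑ i, Real.log (K * U i) - ∑ i, Real.log (K * B i) - m * d) 0) ≤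
        (K ^ 2) ^ m * (1 + δ ^ m * w / Q) ^ m := by
      rw [Real.exp_nat_mul, exp_max, ← mul_pow]
      refine pow_le_pow_left₀ (by positivity) ?_ m
      have g2 : Real.exp (∑ i, Real.log (K * U i) - ∑ i, Real.log (K * B i) - m * d) =
          (∏ i, U i) / (∏ i, B i) * δ ^ m := by
        have g0 : Real.exp (-((m : ℝ) * d)) = δ ^ m := by
          rw [hd, mul_neg, neg_neg, Real.exp_nat_mul, Real.exp_log hδ]
        rw [sub_eq_add_neg (_ - _) ((m : ℝ) * d), Real.exp_add, g0]
        congr 1
        rw [Real.exp_sub, Real.exp_sum, Real.exp_sum,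
          Finset.prod_congr rfl fun i _ => Real.exp_log (mul_pos hK0 (hU i)),
          Finset.prod_congr rfl fun i _ => Real.exp_log (mul_pos hK0 (hB i)),
          Finset.prod_mul_distrib, Finset.prod_mul_distrib, mul_div_mul_left]
        exact (Finset.prod_pos fun _ _ => hK0).ne'
      rw [g2]
      have hwQ : 0 < δ ^ m * w / Q := by positivity
      have hKK : 1 ≤ K ^ 2 := one_le_pow₀ hK1
      refine max_le ((mul_le_mul_of_nonneg_right b3' (by positivity)).trans ?_) ?_
      · have h5 : K ^ 2 * (w / Q) * δ ^ m = K ^ 2 * (δ ^ m * w / Q) := by ring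
        rw [h5]
        nlinarith
      · nlinarith
    have g3 : Real.exp (∑ i, ∑ j, (if i < j then (Real.log (K * U j) - Real.log (K * U i)) +
        (Real.log (A j) - Real.log (A i)) + (Real.log (K * B j) - Real.log (K * B i)) else 0)) =
        skw A * skw U * skw B := by
      have g4 := exp_skw U hU K hK0
      have g5 := exp_skw B hB K hK0
      have g6 := exp_skw A hA 1 one_pos
      simp only [one_mul] at g6
      rw [← g4, ← g5, ← g6, ← Real.exp_add, ← Real.exp_add]
      congr 1
      simp only [← Finset.sum_add_distrib]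
      refine Finset.sum_congr rfl fun i _ => Finset.sum_congr rfl fun j _ => ?_
      split_ifs <;> ring
    rw [g3]
    refine mul_le_mul_of_nonneg_right g1 ?_
    rw [← g3]; exact (Real.exp_pos _).le
  have hskw : 0 ≤ skw A * skw U * skw B := by
    have g4 := exp_skw U hU K hK0
    have g5 := exp_skw B hB K hK0
    have g6 := exp_skw A hA 1 one_pos
    rw [← g4, ← g5, ← g6]; positivity
  calc ∏ i, ∏ j, ((1 + U i / A j) * (1 + B i / A j) * (1 + δ * (U i / B j)))
      ≤ _ := hprod
    _ = _ := heq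
    _ ≤ (8 * K ^ 2) ^ (m * m) * ((K * w) ^ m * (K * Q) ^ m) *
          ((K ^ 2) ^ m * (1 + δ ^ m * w / Q) ^ m * (skw A * skw U * skw B)) := by
        refine mul_le_mul (mul_le_mul_of_nonneg_left (mul_le_mul
          (pow_le_pow_left₀ (by positivity) b1' m) (pow_le_pow_left₀ (by positivity) b2' m)
          (by positivity) (by positivity)) (by positivity)) hexp (Real.exp_pos _).le (by positivity)
    _ = (8 * K ^ 2) ^ (m * m) * (K ^ 4) ^ m * w ^ m * Q ^ m * (1 + δ ^ m * w / Q) ^ m * skw A *
          skw U * skw B := by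
        rw [mul_pow K w, mul_pow K Q, show (K ^ 4) ^ m = K ^ m * K ^ m * (K ^ 2) ^ m by ring]
        ring

end Pool.Agent.H27.L1.H16.GB
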